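import Pool.Agent.Helper97.Ku.GoalsG

/-! Transfer of `Σ¹₂` to the quotient. -/

namespace Pool.Agent.Helper97.Ku.PkSIG

universe u

open BSet

variable {Ω : Type u} [LinearOrder Ω] {L : Type u} [CompleteBooleanAlgebra L]

theorem eqAt_self (x : FN Ω L) (i : Ω) : x.eqAt x i = ⊤ := by
  unfold FN.eqAt
  simp only [inf_idem]
  exact x.tot i

theorem eqf_self (x : FN Ω L) : x.eqf x = ⊤ := by
  simp [FN.eqf, eqAt_self]

theorem eqf_le_eqv (α : Ω) (x y : FN Ω L) : x.eqf y ≤ FN.eqv α x y :=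
  le_iInf fun i => le_iInf fun _ => iInf_le _ i

theorem ext3_of_open {B : FN Ω L → FN Ω L → FN Ω L → L} (hB : Open3 B) : FN.Ext3 B := by
  intro x g h x' g' h'
  refine le_trans (inf_le_inf_left _ (hB x g h)) ?_
  rw [inf_iSup_eq]
  refine iSup_le fun α => ?_
  have h1 : (⨅ x', ⨅ g', ⨅ h', ((FN.eqv α x x' ⊓ FN.eqv α g g' ⊓ FN.eqv α h h') ⇨
      B x' g' h')) ≤ ((FN.eqv α x x' ⊓ FN.eqv α g g' ⊓ FN.eqv α h h') ⇨ B x' g' h') :=
    le_trans (iInf_le _ x') (le_trans (iInf_le _ g') (iInf_le _ h'))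
  have h2 : x.eqf x' ⊓ g.eqf g' ⊓ h.eqf h' ≤
      FN.eqv α x x' ⊓ FN.eqv α g g' ⊓ FN.eqv α h h' :=
    inf_le_inf (inf_le_inf (eqf_le_eqv α x x') (eqf_le_eqv α g g')) (eqf_le_eqv α h h')
  refine le_trans (inf_le_inf h2 h1) ?_
  exact inf_himp_le

/-- The extension of a ground predicate to names. -/
theorem wext (ψ : Ω → L) : WN.Ext (fun a : WN Ω L => ⨆ i, (a.v i ⊓ ψ i)) := by
  intro a b
  rw [iSup_inf_eq]
  refine iSup_le fun i => ?_
  rw [inf_iSup_eq]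
  refine iSup_le fun j => ?_
  by_cases h : i = j
  · subst h
    refine le_trans ?_ (le_iSup _ i)
    exact le_inf (le_trans inf_le_left inf_le_right) (le_trans inf_le_right inf_le_right)
  · refine le_trans (le_inf (le_trans inf_le_left inf_le_left)
      (le_trans inf_le_right inf_le_left)) ?_
    rw [a.dj i j h]
    exact bot_le

theorem wchk (ψ : Ω → L) (i : Ω) :
    (⨆ j, ((WN.chk i : WN Ω L).v j ⊓ ψ j)) = ψ i := by
  apply le_antisymm
  · refine iSup_le fun j => ?_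
    show bo (j = i) ⊓ ψ j ≤ ψ i
    by_cases h : j = i
    · subst h; exact inf_le_right
    · rw [bo_false h, bot_inf_eq]; exact bot_le
  · refine le_trans ?_ (le_iSup _ i)
    show ψ i ≤ bo (i = i) ⊓ ψ i
    rw [bo_true rfl, top_inf_eq]

theorem winf (a : WN Ω L) (φ χ : Ω → L) :
    (⨆ i, (a.v i ⊓ φ i)) ⊓ (⨆ i, (a.v i ⊓ χ i)) ≤ ⨆ i, (a.v i ⊓ (φ i ⊓ χ i)) := by
  rw [iSup_inf_eq]
  refine iSup_le fun i => ?_
  rw [inf_iSup_eq]
  refine iSup_le fun j => ?_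
  by_cases h : i = j
  · subst h
    refine le_trans ?_ (le_iSup _ i)
    exact le_inf (le_trans inf_le_left inf_le_left)
      (le_inf (le_trans inf_le_left inf_le_right) (le_trans inf_le_right inf_le_right))
  · refine le_trans (le_inf (le_trans inf_le_left inf_le_left)
      (le_trans inf_le_right inf_le_left)) ?_
    rw [a.dj i j h]
    exact bot_le

/-- The two values agree: value of an application. -/
theorem ap_inf (G : Grd Ω) (x y : FN Ω L) (j c : WN Ω L) :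
    (M1 G L).ap x j c ⊓ (M1 G L).ap y j c ≤ ⨆ i, (j.v i ⊓ x.eqAt y i) := by
  show (⨆ i, ⨆ k, (j.v i ⊓ c.v k ⊓ x.v i k)) ⊓ (⨆ i, ⨆ k, (j.v i ⊓ c.v k ⊓ y.v i k)) ≤ _
  rw [iSup_inf_eq]
  refine iSup_le fun i => ?_
  rw [iSup_inf_eq]
  refine iSup_le fun k => ?_
  rw [inf_iSup_eq]
  refine iSup_le fun i' => ?_
  rw [inf_iSup_eq]
  refine iSup_le fun k' => ?_
  have h1 : j.v i ⊓ c.v k ⊓ x.v i k ≤ j.v i := le_trans inf_le_left inf_le_left
  have h2 : j.v i ⊓ c.v k ⊓ x.v i k ≤ c.v k := le_trans inf_le_left inf_le_right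
  have h3 : j.v i' ⊓ c.v k' ⊓ y.v i' k' ≤ j.v i' := le_trans inf_le_left inf_le_left
  have h4 : j.v i' ⊓ c.v k' ⊓ y.v i' k' ≤ c.v k' := le_trans inf_le_left inf_le_right
  by_cases hi : i = i'
  · by_cases hk : k = k'
    · subst hi; subst hk
      refine le_trans ?_ (le_iSup _ i)
      refine le_inf (le_trans inf_le_left h1) ?_
      refine le_trans ?_ (le_iSup _ k)
      exact le_inf (le_trans inf_le_left inf_le_right) (le_trans inf_le_right inf_le_right)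
    · refine le_trans (inf_le_inf h2 h4) ?_
      rw [c.dj k k' hk]; exact bot_le
  · refine le_trans (inf_le_inf h1 h3) ?_
    rw [j.dj i i' hi]; exact bot_le

theorem agree (hW : G_WNA.{u}) [WellFoundedLT Ω] {G : Grd Ω} {U : UF L} (r : Rz G U)
    (a : WN Ω L) (x y : FN Ω L)
    (h : AgreeBelow NM.E r.w (r.cW a) (r.cF x) (r.cF y)) :
    U.mem (⨆ i, (a.v i ⊓ FN.eqv i x y)) := by
  have hW1 := (hW Ω L G).1
  set θ : Ω → L := fun i => ⨆ k, (a.v k ⊓ bo (i < k)) with hθ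
  obtain ⟨-, ⟨j, hj⟩, -, hc⟩ := hW1 (fun j : WN Ω L => ⨆ i, (j.v i ⊓ (θ i ⇨ x.eqAt y i)))
    (wext _)
  simp only [wchk] at hc
  -- the value at `j` belongs to the ultrafilter
  have hlt : (M1 G L).lt j a = ⨆ i, (j.v i ⊓ θ i) := by
    show (⨆ i, ⨆ k, (j.v i ⊓ a.v k ⊓ bo (i < k))) = _
    refine iSup_congr fun i => ?_
    rw [hθ]
    simp only [inf_iSup_eq, inf_assoc]
  have hmem : U.mem (⨆ i, (j.v i ⊓ (θ i ⇨ x.eqAt y i))) := by
    by_cases hU : U.mem ((M1 G L).lt j a)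
    · have h1 : NM.E (r.cW j).1 (r.cW a).1 := (r.cW_lt j a).2 hU
      have h2 := h (r.cW j) h1
      obtain ⟨c, hcc⟩ := r.cW_surj (r.cF x (r.cW j))
      have h3 : U.mem ((M1 G L).ap x j c) := (r.cF_ap x j c).1 hcc.symm
      have h4 : U.mem ((M1 G L).ap y j c) := (r.cF_ap y j c).1 (h2.symm.trans hcc.symm)
      refine U.mono ?_ (U.inf h3 h4)
      refine le_trans (ap_inf G x y j c) ?_
      refine iSup_mono fun i => ?_
      exact inf_le_inf_left _ le_himp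
    · have h1 : U.mem (((M1 G L).lt j a)ᶜ) := U.compl.2 hU
      refine U.mono ?_ h1
      have h2 : ((M1 G L).lt j a)ᶜ = ⨆ i, (((M1 G L).lt j a)ᶜ ⊓ j.v i) := by
        rw [← inf_iSup_eq, j.tot, inf_top_eq]
      rw [h2]
      refine iSup_mono fun i => ?_
      refine le_inf inf_le_right ?_
      rw [le_himp_iff]
      have h3 : ((M1 G L).lt j a)ᶜ ⊓ j.v i ⊓ θ i ≤ ((M1 G L).lt j a)ᶜ ⊓ (M1 G L).lt j a := by
        refine le_inf (le_trans inf_le_left inf_le_left) ?_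
        rw [hlt]
        refine le_trans ?_ (le_iSup _ i)
        exact inf_le_inf_right _ inf_le_right
      refine le_trans h3 ?_
      rw [compl_inf_self]
      exact bot_le
  have hj' : (⨆ i, (j.v i ⊓ (θ i ⇨ x.eqAt y i))) = ⨅ i, (θ i ⇨ x.eqAt y i) := by
    rw [← hc]; exact hj
  rw [hj'] at hmem
  refine U.mono ?_ hmem
  have h2 : (⨅ i, (θ i ⇨ x.eqAt y i)) = ⨆ i, (a.v i ⊓ ⨅ i, (θ i ⇨ x.eqAt y i)) := by
    rw [← iSup_inf_eq, a.tot, top_inf_eq]
  rw [h2]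
  refine iSup_mono fun i => ?_
  refine le_inf inf_le_left ?_
  refine le_iInf fun k => le_iInf fun hk => ?_
  have h3 : a.v i ≤ θ k := by
    rw [hθ]
    refine le_trans ?_ (le_iSup _ i)
    rw [bo_true hk, inf_top_eq]
  refine le_trans (inf_le_inf h3 (iInf_le _ k)) ?_
  exact inf_himp_le

theorem sig : G_WNA.{u} → G_FNF.{u} → G_SIG.{u} := by
  intro hW hF Ω _ _ L _ G U r A hA A' hA'
  obtain ⟨B, hB, hAB⟩ := hA
  have hB3 := ext3_of_open hB
  obtain ⟨b, hb⟩ := r.setB B hB3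
  haveI : Nonempty Ω := ⟨G.c0⟩
  refine ⟨b, ?_, ?_⟩
  · intro x g h hx hg hh hxgh
    obtain ⟨x1, rfl⟩ := r.cF_surj x hx
    obtain ⟨g1, rfl⟩ := r.cF_surj g hg
    obtain ⟨h1, rfl⟩ := r.cF_surj h hh
    rw [hb] at hxgh
    set ψ : Ω → L := fun α => ⨅ x', ⨅ g', ⨅ h',
      ((FN.eqv α x1 x' ⊓ FN.eqv α g1 g' ⊓ FN.eqv α h1 h') ⇨ B x' g' h') with hψ
    have hU : U.mem (⨆ α, ψ α) := U.mono (hB x1 g1 h1) hxgh
    obtain ⟨⟨a, ha⟩, -, hc, -⟩ := (hW Ω L G).1 (fun a : WN Ω L => ⨆ i, (a.v i ⊓ ψ i)) (wext _)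
    simp only [wchk] at hc
    have ha' : (⨆ i, (a.v i ⊓ ψ i)) = ⨆ i, ψ i := by rw [← hc]; exact ha
    rw [← ha'] at hU
    refine ⟨r.cW a, ?_⟩
    intro x' g' h' hx' hg' hh' ex eg eh
    obtain ⟨x2, rfl⟩ := r.cF_surj x' hx'
    obtain ⟨g2, rfl⟩ := r.cF_surj g' hg'
    obtain ⟨h2, rfl⟩ := r.cF_surj h' hh'
    rw [hb]
    have e1 := agree hW r a x1 x2 ex
    have e2 := agree hW r a g1 g2 eg
    have e3 := agree hW r a h1 h2 eh
    refine U.mono ?_ (U.inf (U.mono (winf a _ _) (U.inf (U.mono (winf a _ _) (U.inf e1 e2)) e3))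
      hU)
    refine le_trans (winf a _ _) ?_
    refine iSup_le fun i => ?_
    refine le_trans inf_le_right ?_
    refine le_trans (inf_le_inf_left _ (le_trans (iInf_le _ x2) (le_trans (iInf_le _ g2)
      (iInf_le _ h2)))) ?_
    exact inf_himp_le
  · intro x hx
    obtain ⟨x1, rfl⟩ := r.cF_surj x hx
    rw [hA' x1, hAB x1]
    constructor
    · intro hU
      obtain ⟨⟨g, hg⟩, -⟩ := hF Ω L (fun g => ⨅ h, B x1 g h) (by
        intro g g'
        refine le_iInf fun h => ?_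
        refine le_trans (inf_le_inf_left _ (iInf_le _ h)) ?_
        refine le_trans ?_ (hB3 x1 g h x1 g' h)
        rw [eqf_self, eqf_self, top_inf_eq, inf_top_eq])
      have hg' : U.mem (⨅ h, B x1 g h) := by rw [← hg] at hU; exact hU
      refine ⟨r.cF g, r.cF_rep g, ?_⟩
      intro h hh
      obtain ⟨h1, rfl⟩ := r.cF_surj h hh
      rw [hb]
      exact U.mono (iInf_le _ h1) hg'
    · rintro ⟨g, hg, hh⟩
      obtain ⟨g1, rfl⟩ := r.cF_surj g hg
      obtain ⟨-, ⟨h, he⟩⟩ := hF Ω L (fun h => B x1 g1 h) (by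
        intro h h'
        refine le_trans ?_ (hB3 x1 g1 h x1 g1 h')
        rw [eqf_self, eqf_self, top_inf_eq, top_inf_eq])
      have h1 := hh (r.cF h) (r.cF_rep h)
      rw [hb] at h1
      have h2 : U.mem (⨅ h, B x1 g1 h) := by rw [← he]; exact h1
      exact U.mono (le_iSup (fun g => ⨅ h, B x1 g h) g1) h2

end Pool.Agent.Helper97.Ku.PkSIG
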